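import Pool.Agent.Y157.GT.Stm
import Pool.Agent.Y69.TK.Emb2

/-! Embeddings of finitely generated fields in `ℚ_p` with prescribed units. -/

set_option autoImplicit false
set_option linter.all false

open Polynomial

namespace Pool.Agent.Y328.GT

theorem embp : Pool.Agent.Y157.GT.S_EMBP := by
  classical
  intro k κ₀ _ _ _ _ hcl hfg T N
  obtain ⟨S₀, hS₀⟩ := hfg
  have halg : Algebra.IsAlgebraic k κ₀ := hcl.isAlgebraic
  let k₁ : IntermediateField k κ₀ := IntermediateField.adjoin k (T : Set κ₀)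
  have hT : ∀ a ∈ T, a ∈ k₁ := fun a ha => IntermediateField.subset_adjoin k _ ha
  have hfd : FiniteDimensional k k₁ :=
    IntermediateField.finiteDimensional_adjoin fun x _ => (halg.isAlgebraic x).isIntegral
  have hc0 : CharZero κ₀ := charZero_of_injective_algebraMap (algebraMap k κ₀).injective
  have hc1 : CharZero k₁ := charZero_of_injective_algebraMap (algebraMap k k₁).injective
  let G : Finset k₁ := S₀.image (algebraMap k k₁) ∪
    (T.attach.image (fun a => (⟨a.1, hT a.1 a.2⟩ : k₁)) ∪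
      T.attach.image (fun a => (⟨a.1, hT a.1 a.2⟩ : k₁)⁻¹))
  let A : Subalgebra ℤ k₁ := Algebra.adjoin ℤ (G : Set k₁)
  have hGA : ∀ a ∈ G, a ∈ A := fun a ha => Algebra.subset_adjoin ha
  have hT1 : ∀ a : k₁, (a : κ₀) ∈ T → a ∈ A ∧ a⁻¹ ∈ A := by
    intro a ha
    have e1 : (⟨(a : κ₀), hT _ ha⟩ : k₁) = a := rfl
    constructor
    · apply hGA
      simp only [G, Finset.mem_union, Finset.mem_image, Finset.mem_attach, true_and, Subtype.exists]
      exact Or.inr (Or.inl ⟨a, ha, rfl⟩)
    · apply hGA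
      simp only [G, Finset.mem_union, Finset.mem_image, Finset.mem_attach, true_and, Subtype.exists]
      exact Or.inr (Or.inr ⟨a, ha, rfl⟩)
  have hft : Algebra.FiniteType ℤ A := (Subalgebra.fg_iff_finiteType A).1 (Subalgebra.fg_adjoin_finset G)
  have hcA : CharZero A := inferInstance
  -- the field generated by `A`
  let C : Subfield k₁ := Subfield.closure (A : Set k₁)
  have hAC : ∀ a ∈ A, a ∈ C := fun a ha => Subfield.subset_closure ha
  have hk : ∀ a : k, algebraMap k k₁ a ∈ C := by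
    intro a
    have ha : a ∈ IntermediateField.adjoin ℚ (S₀ : Set k) := by rw [hS₀]; trivial
    induction ha using IntermediateField.adjoin_induction with
    | mem x hx =>
      apply hAC
      apply hGA
      simp only [G, Finset.mem_union, Finset.mem_image]
      exact Or.inl ⟨x, hx, rfl⟩
    | algebraMap x =>
      have : algebraMap k k₁ (algebraMap ℚ k x) = (x : k₁) := by simp
      rw [this]
      exact SubfieldClass.ratCast_mem C x
    | add x y _ _ hx hy => rw [map_add]; exact add_mem hx hy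
    | inv x _ hx => rw [map_inv₀]; exact inv_mem hx
    | mul x y _ _ hx hy => rw [map_mul]; exact mul_mem hx hy
  have htop : ∀ z : k₁, z ∈ C := by
    rintro ⟨z, hz⟩
    induction hz using IntermediateField.adjoin_induction with
    | mem x hx => exact hAC _ (hT1 ⟨x, hT x hx⟩ hx).1
    | algebraMap x => exact hk x
    | add x y hx hy h1 h2 => exact add_mem h1 h2
    | inv x hx h1 => exact inv_mem h1
    | mul x y hx hy h1 h2 => exact mul_mem h1 h2
  have hfrac : IsFractionRing A k₁ := by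
    refine IsFractionRing.of_field _ _ (fun z => ?_)
    obtain ⟨x, hx, y, hy, hxy⟩ := Subfield.mem_closure_iff.1 (htop z)
    have hcl' : ∀ w ∈ Subring.closure (A : Set k₁), w ∈ A := by
      intro w hw
      have h1 : Subring.closure (A : Set k₁) ≤ A.toSubring := Subring.closure_le.2 (fun _ h => h)
      exact h1 hw
    exact ⟨⟨x, hcl' x hx⟩, ⟨y, hcl' y hy⟩, hxy.symm⟩
  obtain ⟨p, hp, hpN, -, ψ, hψ⟩ := Pool.Agent.Y69.TK.Emb.exists_embedding (A := A) 1 N one_pos
  have hinj : Function.Injective ((PadicInt.Coe.ringHom (p := p)).comp ψ) :=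
    fun x y h => hψ (Subtype.ext h)
  let j : k₁ →+* ℚ_[p] := IsFractionRing.lift hinj
  refine ⟨k₁, p, hp, j, hfd, hpN, hT, ?_⟩
  intro a ha ha0
  obtain ⟨h1, h2⟩ := hT1 a ha
  have h3 : (⟨a, h1⟩ : A) * ⟨a⁻¹, h2⟩ = 1 := Subtype.ext (mul_inv_cancel₀ ha0)
  have h4 : IsUnit (ψ ⟨a, h1⟩) := IsUnit.of_mul_eq_one (ψ ⟨a⁻¹, h2⟩) (by rw [← map_mul, h3, map_one])
  have h5 : j a = ((ψ ⟨a, h1⟩ : ℤ_[p]) : ℚ_[p]) := IsFractionRing.lift_algebraMap hinj ⟨a, h1⟩
  rw [h5]
  exact PadicInt.isUnit_iff.1 h4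

end Pool.Agent.Y328.GT
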